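import Pool.Agent.MWP.Stmts

/-!
# Squad MWP (MP_23468a_al), row CMB: the steps keep the conditions on the second block
-/

set_option autoImplicit false
set_option linter.unusedSimpArgs false

namespace Pool.Agent.MWP.H66

open Pool.Agent.Helper14_MV Pool.Agent.Helper2_MV Pool.Agent.MWF Pool.Agent.MWP

theorem mem4 {z : ℕ} (f : ℕ → List ℕ) (a b c d : ℕ) :
    z ∈ [a, b, c, d].flatMap f ↔ z ∈ f a ∨ z ∈ f b ∨ z ∈ f c ∨ z ∈ f d := by
  simp

theorem pat {x y : ℕ} {γ U q : List ℕ} : [x, y].Sublist (γ ++ U ++ q) ↔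
    ([x, y].Sublist γ ∨ (x ∈ γ ∧ y ∈ U) ∨ ((x ∈ γ ∨ x ∈ U) ∧ y ∈ q) ∨ [x, y].Sublist q) ∨
      [x, y].Sublist U := by
  rw [pair_append, pair_append, List.mem_append]
  tauto

theorem pat_congr {x y : ℕ} {γ U U' q : List ℕ} (h : ∀ z, z ∈ U ↔ z ∈ U')
    (h2 : [x, y].Sublist U ↔ [x, y].Sublist U') :
    [x, y].Sublist (γ ++ U ++ q) ↔ [x, y].Sublist (γ ++ U' ++ q) := by
  rw [pat, pat, h x, h y, h2]

theorem pair4 {x y : ℕ} (f : ℕ → List ℕ) (a b c d : ℕ)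
    (ha : ¬ [x, y].Sublist (f a)) (hb : ¬ [x, y].Sublist (f b)) (hc : ¬ [x, y].Sublist (f c))
    (hd : ¬ [x, y].Sublist (f d)) :
    [x, y].Sublist ([a, b, c, d].flatMap f) ↔
      (x ∈ f a ∧ (y ∈ f b ∨ y ∈ f c ∨ y ∈ f d)) ∨ (x ∈ f b ∧ (y ∈ f c ∨ y ∈ f d)) ∨
        (x ∈ f c ∧ y ∈ f d) := by
  simp only [List.flatMap_cons, List.flatMap_nil, List.append_nil, pair_append, List.mem_append,
    ha, hb, hc, hd, false_or, or_false]

theorem sg_pair {l : List ℕ} {k x y : ℕ} (h : Sg l k) (hxy : x ≠ y) : ¬ [x, y].Sublist l := by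
  intro h1
  obtain ⟨h2, h3⟩ := pair_mem h1
  exact hxy ((h x h2).trans (h y h3).symm)

theorem sg_mem {l : List ℕ} {k x : ℕ} (h : Sg l k) (hx : x ≠ k) : x ∉ l := fun h1 => hx (h x h1)

/-- the case `o = false`, in terms of the patterns -/
structure Core (f : ℕ → List ℕ) (γ q : List ℕ) : Prop where
  a42 : [4, 2].Sublist (γ ++ [2, 4, 1, 3].flatMap f ++ q) ↔
    [4, 2].Sublist (γ ++ [2, 3, 4, 1].flatMap f ++ q)
  b42 : [4, 2].Sublist (γ ++ [4, 2, 3, 1].flatMap f ++ q) ↔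
    [4, 2].Sublist (γ ++ [4, 1, 2, 3].flatMap f ++ q)
  a41 : [4, 1].Sublist (γ ++ [2, 4, 1, 3].flatMap f ++ q) ↔
    [4, 1].Sublist (γ ++ [2, 3, 4, 1].flatMap f ++ q)
  b41 : [4, 1].Sublist (γ ++ [2, 3, 4, 1].flatMap f ++ q) ↔
    [4, 1].Sublist (γ ++ [4, 2, 3, 1].flatMap f ++ q)
  c41 : [4, 1].Sublist (γ ++ [4, 2, 3, 1].flatMap f ++ q) ↔
    [4, 1].Sublist (γ ++ [4, 1, 2, 3].flatMap f ++ q)
  a31 : [3, 1].Sublist (γ ++ [2, 3, 4, 1].flatMap f ++ q) ↔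
    [3, 1].Sublist (γ ++ [4, 2, 3, 1].flatMap f ++ q)
  b31 : [3, 1].Sublist (γ ++ [2, 4, 1, 3].flatMap f ++ q) ↔
    [3, 1].Sublist (γ ++ [4, 1, 2, 3].flatMap f ++ q)
  k : [4, 1].Sublist (γ ++ [2, 3, 4, 1].flatMap f ++ q) →
    ¬ [3, 1].Sublist (γ ++ [2, 3, 4, 1].flatMap f ++ q) →
    ([4, 2].Sublist (γ ++ [2, 3, 4, 1].flatMap f ++ q) ↔
      [4, 2].Sublist (γ ++ [4, 2, 3, 1].flatMap f ++ q))

theorem m1 (f : ℕ → List ℕ) (z : ℕ) :
    z ∈ [2, 4, 1, 3].flatMap f ↔ z ∈ [2, 3, 4, 1].flatMap f := by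
  rw [mem4, mem4]; tauto

theorem m2 (f : ℕ → List ℕ) (z : ℕ) :
    z ∈ [2, 3, 4, 1].flatMap f ↔ z ∈ [4, 2, 3, 1].flatMap f := by
  rw [mem4, mem4]; tauto

theorem m3 (f : ℕ → List ℕ) (z : ℕ) :
    z ∈ [4, 2, 3, 1].flatMap f ↔ z ∈ [4, 1, 2, 3].flatMap f := by
  rw [mem4, mem4]; tauto

/-- if the patterns do not occur in the middle part -/
theorem core_of {f : ℕ → List ℕ}
    (h : ∀ x y, (x = 3 ∨ x = 4) → (y = 1 ∨ y = 2) → ∀ u ∈ [[2, 4, 1, 3], [2, 3, 4, 1],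
      [4, 2, 3, 1], [4, 1, 2, 3]], ¬ [x, y].Sublist (List.flatMap f u)) (γ q : List ℕ) :
    Core f γ q := by
  have h1 : ∀ x y, (x = 3 ∨ x = 4) → (y = 1 ∨ y = 2) → ¬ [x, y].Sublist ([2, 4, 1, 3].flatMap f) :=
    fun x y hx hy => h x y hx hy _ (by simp)
  have h2 : ∀ x y, (x = 3 ∨ x = 4) → (y = 1 ∨ y = 2) → ¬ [x, y].Sublist ([2, 3, 4, 1].flatMap f) :=
    fun x y hx hy => h x y hx hy _ (by simp)
  have h3 : ∀ x y, (x = 3 ∨ x = 4) → (y = 1 ∨ y = 2) → ¬ [x, y].Sublist ([4, 2, 3, 1].flatMap f) :=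
    fun x y hx hy => h x y hx hy _ (by simp)
  have h4 : ∀ x y, (x = 3 ∨ x = 4) → (y = 1 ∨ y = 2) → ¬ [x, y].Sublist ([4, 1, 2, 3].flatMap f) :=
    fun x y hx hy => h x y hx hy _ (by simp)
  have i3 : (3 = 3 ∨ 3 = 4) := Or.inl rfl
  have i4 : (4 = 3 ∨ 4 = 4) := Or.inr rfl
  have j1 : (1 = 1 ∨ 1 = 2) := Or.inl rfl
  have j2 : (2 = 1 ∨ 2 = 2) := Or.inr rfl
  exact
    { a42 := pat_congr (m1 f) (iff_of_false (h1 _ _ i4 j2) (h2 _ _ i4 j2))
      b42 := pat_congr (m3 f) (iff_of_false (h3 _ _ i4 j2) (h4 _ _ i4 j2))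
      a41 := pat_congr (m1 f) (iff_of_false (h1 _ _ i4 j1) (h2 _ _ i4 j1))
      b41 := pat_congr (m2 f) (iff_of_false (h2 _ _ i4 j1) (h3 _ _ i4 j1))
      c41 := pat_congr (m3 f) (iff_of_false (h3 _ _ i4 j1) (h4 _ _ i4 j1))
      a31 := pat_congr (m2 f) (iff_of_false (h2 _ _ i3 j1) (h3 _ _ i3 j1))
      b31 := pat_congr (fun z => ((m1 f z).trans (m2 f z)).trans (m3 f z))
        (iff_of_false (h1 _ _ i3 j1) (h4 _ _ i3 j1))
      k := fun _ _ => pat_congr (m2 f) (iff_of_false (h2 _ _ i4 j2) (h3 _ _ i4 j2)) }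

theorem core {f : ℕ → List ℕ} (hf : Good f) (γ q : List ℕ) : Core f γ q := by
  rcases hf with hf | hf | ⟨h1, h2, h3, h4, h5⟩
  · refine core_of ?_ γ q
    intro x y hx _ u hu hs
    obtain ⟨c, hc, hxc⟩ := List.mem_flatMap.1 (pair_mem hs).1
    have hc4 : 1 ≤ c ∧ c ≤ 4 := by
      simp only [List.mem_cons, List.not_mem_nil, or_false] at hu
      rcases hu with rfl | rfl | rfl | rfl <;>
        simp only [List.mem_cons, List.not_mem_nil, or_false] at hc <;> omega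
    have := hf c hc4.1 hc4.2 x hxc
    omega
  · refine core_of ?_ γ q
    intro x y _ hy u hu hs
    obtain ⟨c, hc, hyc⟩ := List.mem_flatMap.1 (pair_mem hs).2
    have hc4 : 1 ≤ c ∧ c ≤ 4 := by
      simp only [List.mem_cons, List.not_mem_nil, or_false] at hu
      rcases hu with rfl | rfl | rfl | rfl <;>
        simp only [List.mem_cons, List.not_mem_nil, or_false] at hc <;> omega
    have := hf c hc4.1 hc4.2 y hyc
    omega
  · have p1 : ∀ x y : ℕ, x ≠ y → ¬ [x, y].Sublist (f 1) := fun x y hxy => by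
      rcases h1 with h1 | h1
      · exact sg_pair h1 hxy
      · exact sg_pair h1 hxy
    have p2 : ∀ x y : ℕ, x ≠ y → ¬ [x, y].Sublist (f 2) := fun x y hxy => sg_pair h2 hxy
    have p3 : ∀ x y : ℕ, x ≠ y → ¬ [x, y].Sublist (f 3) := fun x y hxy => sg_pair h3 hxy
    have p4 : ∀ x y : ℕ, x ≠ y → ¬ [x, y].Sublist (f 4) := fun x y hxy => by
      rcases h4 with h4 | h4
      · exact sg_pair h4 hxy
      · exact sg_pair h4 hxy
    have n31 : (3 : ℕ) ∉ f 1 := by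
      rcases h1 with h1 | h1
      · exact sg_mem h1 (by norm_num)
      · exact sg_mem h1 (by norm_num)
    have n41 : (4 : ℕ) ∉ f 1 := by
      rcases h1 with h1 | h1
      · exact sg_mem h1 (by norm_num)
      · exact sg_mem h1 (by norm_num)
    have n12 : (1 : ℕ) ∉ f 2 := sg_mem h2 (by norm_num)
    have n32 : (3 : ℕ) ∉ f 2 := sg_mem h2 (by norm_num)
    have n42 : (4 : ℕ) ∉ f 2 := sg_mem h2 (by norm_num)
    have n13 : (1 : ℕ) ∉ f 3 := sg_mem h3 (by norm_num)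
    have n23 : (2 : ℕ) ∉ f 3 := sg_mem h3 (by norm_num)
    have n43 : (4 : ℕ) ∉ f 3 := sg_mem h3 (by norm_num)
    have n14 : (1 : ℕ) ∉ f 4 := by
      rcases h4 with h4 | h4
      · exact sg_mem h4 (by norm_num)
      · exact sg_mem h4 (by norm_num)
    have n24 : (2 : ℕ) ∉ f 4 := by
      rcases h4 with h4 | h4
      · exact sg_mem h4 (by norm_num)
      · exact sg_mem h4 (by norm_num)
    have E : ∀ (x y a b c d : ℕ), x ≠ y → (a = 1 ∨ a = 2 ∨ a = 3 ∨ a = 4) →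
        (b = 1 ∨ b = 2 ∨ b = 3 ∨ b = 4) → (c = 1 ∨ c = 2 ∨ c = 3 ∨ c = 4) →
        (d = 1 ∨ d = 2 ∨ d = 3 ∨ d = 4) →
        ([x, y].Sublist ([a, b, c, d].flatMap f) ↔
          (x ∈ f a ∧ (y ∈ f b ∨ y ∈ f c ∨ y ∈ f d)) ∨ (x ∈ f b ∧ (y ∈ f c ∨ y ∈ f d)) ∨
            (x ∈ f c ∧ y ∈ f d)) := by
      intro x y a b c d hxy ha hb hc hd
      have hp : ∀ k, (k = 1 ∨ k = 2 ∨ k = 3 ∨ k = 4) → ¬ [x, y].Sublist (f k) := by
        rintro k (rfl | rfl | rfl | rfl)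
        · exact p1 x y hxy
        · exact p2 x y hxy
        · exact p3 x y hxy
        · exact p4 x y hxy
      exact pair4 f a b c d (hp a ha) (hp b hb) (hp c hc) (hp d hd)
    have k3 : (4 : ℕ) ∈ f 4 → (2 : ℕ) ∈ f 2 → (3 : ℕ) ∈ f 3 := by
      intro hk4 hk2
      rcases hl : f 3 with _ | ⟨z, l⟩
      · have := h5 (List.ne_nil_of_mem hk2) hl 4 hk4
        omega
      · have hz : z = 3 := h3 z (by rw [hl]; exact List.mem_cons_self)
        rw [hz]
        exact List.mem_cons_self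
    have e42a : [4, 2].Sublist ([2, 4, 1, 3].flatMap f) ↔ (4 : ℕ) ∈ f 4 ∧ (2 : ℕ) ∈ f 1 := by
      rw [E 4 2 2 4 1 3 (by norm_num) (by simp) (by simp) (by simp) (by simp)]
      simp only [n31, n41, n12, n32, n42, n13, n23, n43, n14, n24, false_and, and_false, false_or, or_false]
    have e42b : [4, 2].Sublist ([2, 3, 4, 1].flatMap f) ↔ (4 : ℕ) ∈ f 4 ∧ (2 : ℕ) ∈ f 1 := by
      rw [E 4 2 2 3 4 1 (by norm_num) (by simp) (by simp) (by simp) (by simp)]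
      simp only [n31, n41, n12, n32, n42, n13, n23, n43, n14, n24, false_and, and_false, false_or, or_false]
    have e42c : [4, 2].Sublist ([4, 2, 3, 1].flatMap f) ↔ (4 : ℕ) ∈ f 4 ∧ ((2 : ℕ) ∈ f 2 ∨ (2 : ℕ) ∈ f 1) := by
      rw [E 4 2 4 2 3 1 (by norm_num) (by simp) (by simp) (by simp) (by simp)]
      simp only [n31, n41, n12, n32, n42, n13, n23, n43, n14, n24, false_and, and_false, false_or, or_false]
    have e42d : [4, 2].Sublist ([4, 1, 2, 3].flatMap f) ↔ (4 : ℕ) ∈ f 4 ∧ ((2 : ℕ) ∈ f 1 ∨ (2 : ℕ) ∈ f 2) := by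
      rw [E 4 2 4 1 2 3 (by norm_num) (by simp) (by simp) (by simp) (by simp)]
      simp only [n31, n41, n12, n32, n42, n13, n23, n43, n14, n24, false_and, and_false, false_or, or_false]
    have e41a : [4, 1].Sublist ([2, 4, 1, 3].flatMap f) ↔ (4 : ℕ) ∈ f 4 ∧ (1 : ℕ) ∈ f 1 := by
      rw [E 4 1 2 4 1 3 (by norm_num) (by simp) (by simp) (by simp) (by simp)]
      simp only [n31, n41, n12, n32, n42, n13, n23, n43, n14, n24, false_and, and_false, false_or, or_false]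
    have e41b : [4, 1].Sublist ([2, 3, 4, 1].flatMap f) ↔ (4 : ℕ) ∈ f 4 ∧ (1 : ℕ) ∈ f 1 := by
      rw [E 4 1 2 3 4 1 (by norm_num) (by simp) (by simp) (by simp) (by simp)]
      simp only [n31, n41, n12, n32, n42, n13, n23, n43, n14, n24, false_and, and_false, false_or, or_false]
    have e41c : [4, 1].Sublist ([4, 2, 3, 1].flatMap f) ↔ (4 : ℕ) ∈ f 4 ∧ (1 : ℕ) ∈ f 1 := by
      rw [E 4 1 4 2 3 1 (by norm_num) (by simp) (by simp) (by simp) (by simp)]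
      simp only [n31, n41, n12, n32, n42, n13, n23, n43, n14, n24, false_and, and_false, false_or, or_false]
    have e41d : [4, 1].Sublist ([4, 1, 2, 3].flatMap f) ↔ (4 : ℕ) ∈ f 4 ∧ (1 : ℕ) ∈ f 1 := by
      rw [E 4 1 4 1 2 3 (by norm_num) (by simp) (by simp) (by simp) (by simp)]
      simp only [n31, n41, n12, n32, n42, n13, n23, n43, n14, n24, false_and, and_false, false_or, or_false]
    have e31a : [3, 1].Sublist ([2, 4, 1, 3].flatMap f) ↔ (3 : ℕ) ∈ f 4 ∧ (1 : ℕ) ∈ f 1 := by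
      rw [E 3 1 2 4 1 3 (by norm_num) (by simp) (by simp) (by simp) (by simp)]
      simp only [n31, n41, n12, n32, n42, n13, n23, n43, n14, n24, false_and, and_false, false_or, or_false]
    have e31b : [3, 1].Sublist ([2, 3, 4, 1].flatMap f) ↔ (3 : ℕ) ∈ f 3 ∧ (1 : ℕ) ∈ f 1 ∨ (3 : ℕ) ∈ f 4 ∧ (1 : ℕ) ∈ f 1 := by
      rw [E 3 1 2 3 4 1 (by norm_num) (by simp) (by simp) (by simp) (by simp)]
      simp only [n31, n41, n12, n32, n42, n13, n23, n43, n14, n24, false_and, and_false, false_or, or_false]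
    have e31c : [3, 1].Sublist ([4, 2, 3, 1].flatMap f) ↔ (3 : ℕ) ∈ f 4 ∧ (1 : ℕ) ∈ f 1 ∨ (3 : ℕ) ∈ f 3 ∧ (1 : ℕ) ∈ f 1 := by
      rw [E 3 1 4 2 3 1 (by norm_num) (by simp) (by simp) (by simp) (by simp)]
      simp only [n31, n41, n12, n32, n42, n13, n23, n43, n14, n24, false_and, and_false, false_or, or_false]
    have e31d : [3, 1].Sublist ([4, 1, 2, 3].flatMap f) ↔ (3 : ℕ) ∈ f 4 ∧ (1 : ℕ) ∈ f 1 := by
      rw [E 3 1 4 1 2 3 (by norm_num) (by simp) (by simp) (by simp) (by simp)]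
      simp only [n31, n41, n12, n32, n42, n13, n23, n43, n14, n24, false_and, and_false, false_or, or_false]
    refine
      { a42 := pat_congr (m1 f) ?_
        b42 := pat_congr (m3 f) ?_
        a41 := pat_congr (m1 f) ?_
        b41 := pat_congr (m2 f) ?_
        c41 := pat_congr (m3 f) ?_
        a31 := pat_congr (m2 f) ?_
        b31 := pat_congr (fun z => ((m1 f z).trans (m2 f z)).trans (m3 f z)) ?_
        k := fun hk1 hk2 => ?_ }
    · rw [e42a, e42b]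
    · rw [e42c, e42d, or_comm]
    · rw [e41a, e41b]
    · rw [e41b, e41c]
    · rw [e41c, e41d]
    · rw [e31b, e31c, or_comm]
    · rw [e31a, e31d]
    · by_cases hc : (4 : ℕ) ∈ f 4 ∧ (2 : ℕ) ∈ f 2
      · have h33 := k3 hc.1 hc.2
        have hU3 : (3 : ℕ) ∈ [2, 3, 4, 1].flatMap f := (mem4 f 2 3 4 1).2 (Or.inr (Or.inl h33))
        have n1q : (1 : ℕ) ∉ q := fun h => hk2 (pat.2 (Or.inl (Or.inr (Or.inr (Or.inl
          ⟨Or.inr hU3, h⟩)))))
        have n11 : (1 : ℕ) ∉ f 1 := fun h => hk2 (pat.2 (Or.inr (e31b.2 (Or.inl ⟨h33, h⟩))))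
        have n1U : (1 : ℕ) ∉ [2, 3, 4, 1].flatMap f := by
          intro h
          rcases (mem4 f 2 3 4 1).1 h with h | h | h | h
          · exact n12 h
          · exact n13 h
          · exact n14 h
          · exact n11 h
        have h4γ : (4 : ℕ) ∈ γ := by
          rcases pat.1 hk1 with (h | ⟨-, h⟩ | ⟨-, h⟩ | h) | h
          · exact (pair_mem h).1
          · exact absurd h n1U
          · exact absurd h n1q
          · exact absurd (pair_mem h).2 n1q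
          · exact absurd (pair_mem h).2 n1U
        refine iff_of_true ?_ ?_
        · exact pat.2 (Or.inl (Or.inr (Or.inl ⟨h4γ, (mem4 f 2 3 4 1).2 (Or.inl hc.2)⟩)))
        · exact pat.2 (Or.inr (e42c.2 ⟨hc.1, Or.inl hc.2⟩))
      · refine pat_congr (m2 f) ?_
        rw [e42b, e42c]
        constructor
        · rintro ⟨h6, h7⟩
          exact ⟨h6, Or.inr h7⟩
        · rintro ⟨h6, h7 | h7⟩
          · exact absurd ⟨h6, h7⟩ hc
          · exact ⟨h6, h7⟩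

theorem bf_false {x y : ℕ} {w : List ℕ} : Bf false x y w ↔ ¬ [y, x].Sublist w := by
  unfold Bf; simp

theorem bf_true {x y : ℕ} {w : List ℕ} : Bf true x y w ↔ ¬ [x, y].Sublist w := by
  unfold Bf; simp

theorem bf_rev {x y : ℕ} {w : List ℕ} : Bf true x y w ↔ Bf false x y w.reverse := by
  rw [bf_false, bf_true, pair_reverse]

theorem cmb_false {f : ℕ → List ℕ} (hf : Good f) (γ q : List ℕ) :
    (Cb false (γ ++ [2, 4, 1, 3].flatMap f ++ q) ↔ Cb false (γ ++ [2, 3, 4, 1].flatMap f ++ q)) ∧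
    (Cc false (γ ++ [2, 3, 4, 1].flatMap f ++ q) ↔ Cc false (γ ++ [4, 2, 3, 1].flatMap f ++ q)) ∧
    (Ck false (γ ++ [2, 3, 4, 1].flatMap f ++ q) ↔ Ck false (γ ++ [4, 2, 3, 1].flatMap f ++ q)) ∧
    (Cb false (γ ++ [4, 2, 3, 1].flatMap f ++ q) ↔ Cb false (γ ++ [4, 1, 2, 3].flatMap f ++ q)) ∧
    (Cc false (γ ++ [2, 4, 1, 3].flatMap f ++ q) ↔
      Cc false (γ ++ [4, 1, 2, 3].flatMap f ++ q)) := by
  obtain ⟨a42, b42, a41, b41, c41, a31, b31, k⟩ := core hf γ q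
  simp only [Cb, Cc, Ck, bf_false]
  refine ⟨?_, ?_, ?_, ?_, ?_⟩
  · rw [a42, a41]
  · rw [a31, b41]
  · rw [← a31, ← b41]
    constructor
    · rintro ⟨h1, h2, h3⟩
      exact ⟨fun h => h1 ((k (not_not.1 h3) h2).2 h), h2, h3⟩
    · rintro ⟨h1, h2, h3⟩
      exact ⟨fun h => h1 ((k (not_not.1 h3) h2).1 h), h2, h3⟩
  · rw [b42, c41]
  · rw [b31, a41, b41, c41]

theorem good_rev {f : ℕ → List ℕ} (hf : Good f) : Good (fun c => (f c).reverse) := by
  unfold Good Sg at hf ⊢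
  simp only [List.mem_reverse, ne_eq, List.reverse_eq_nil_iff]
  exact hf

/-- **CMB** -/
theorem cmb : CmbStmt := by
  intro f hf o γ q
  cases o with
  | false => exact cmb_false hf γ q
  | true =>
    have key := cmb_false (good_rev hf) q.reverse γ.reverse
    have e : ∀ a b c d : ℕ, (γ ++ (ro true [a, b, c, d]).flatMap f ++ q).reverse =
        q.reverse ++ [a, b, c, d].flatMap (fun c => (f c).reverse) ++ γ.reverse := by
      intro a b c d
      simp [ro]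
    have hb : ∀ a b c d : ℕ, Cb true (γ ++ (ro true [a, b, c, d]).flatMap f ++ q) ↔
        Cb false (q.reverse ++ [a, b, c, d].flatMap (fun c => (f c).reverse) ++ γ.reverse) := by
      intro a b c d
      rw [← e a b c d]
      simp only [Cb, bf_rev]
    have hc : ∀ a b c d : ℕ, Cc true (γ ++ (ro true [a, b, c, d]).flatMap f ++ q) ↔
        Cc false (q.reverse ++ [a, b, c, d].flatMap (fun c => (f c).reverse) ++ γ.reverse) := by
      intro a b c d
      rw [← e a b c d]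
      simp only [Cc, bf_rev]
    have hk : ∀ a b c d : ℕ, Ck true (γ ++ (ro true [a, b, c, d]).flatMap f ++ q) ↔
        Ck false (q.reverse ++ [a, b, c, d].flatMap (fun c => (f c).reverse) ++ γ.reverse) := by
      intro a b c d
      rw [← e a b c d]
      simp only [Ck, bf_rev]
    rw [hb, hb, hc, hc, hk, hk, hb, hb, hc, hc]
    exact key

end Pool.Agent.MWP.H66
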